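import Pool.Agent.Lib.MP_afdd4d_co.K10.EBOne

/-!
# Checks of bases
-/

namespace Pool.Agent.Lib.MP_afdd4d_co.K10.EB

open K8

theorem ev67 :
    (part 1 402 reps).all one = true ∧
    (part 1 403 reps).all one = true ∧
    (part 1 404 reps).all one = true ∧
    (part 1 405 reps).all one = true ∧
    (part 1 406 reps).all one = true ∧
    (part 1 407 reps).all one = true :=
  ⟨by decide +kernel,
   by decide +kernel,
   by decide +kernel,
   by decide +kernel,
   by decide +kernel,
   by decide +kernel⟩

end Pool.Agent.Lib.MP_afdd4d_co.K10.EB
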